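import Pool.Agent.H398.Gam.Iface

/-!
# Higman's criterion (MP_13b5a2_al, task T2)
-/

set_option autoImplicit false
set_option linter.unusedVariables false
set_option linter.unusedSectionVars false

namespace Pool.Agent.H284.GAM

open MonoidAlgebra Pool.Agent.H398.Gam

universe u v w

section general

variable {k : Type u} [Field k] {G : Type v} [Group G] [Fintype G]
variable {M : Type w} [AddCommGroup M] [Module k M] [Module (MonoidAlgebra k G) M]
  [IsScalarTower k (MonoidAlgebra k G) M]

/-- projectivity from a trace decomposition of the identity -/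
theorem proj_of_trace (θ : M →ₗ[k] M) (h : ∀ v, ∑ g : G, θ.conjugate g v = v) :
    Module.Projective (MonoidAlgebra k G) M := by
  classical
  let b := Module.Basis.ofVectorSpace k M
  let s : (Module.Basis.ofVectorSpaceIndex k M →₀ MonoidAlgebra k G) →ₗ[MonoidAlgebra k G] M :=
    Finsupp.linearCombination (MonoidAlgebra k G) (fun i => b i)
  let j : M →ₗ[k] (Module.Basis.ofVectorSpaceIndex k M →₀ MonoidAlgebra k G) :=
    b.constr k (fun i => Finsupp.single i 1)
  have hsj : ∀ v, s (j v) = v := by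
    have h1 : (s.restrictScalars k) ∘ₗ j = LinearMap.id := by
      refine b.ext (fun i => ?_)
      simp [s, j]
    intro v
    exact congrArg (fun T => T v) h1
  let i := (j ∘ₗ θ).sumOfConjugatesEquivariant G
  refine Module.Projective.of_split i s ?_
  refine LinearMap.ext (fun v => ?_)
  change s (i v) = v
  have h2 : i v = ∑ g : G, (j ∘ₗ θ).conjugate g v := LinearMap.sumOfConjugatesEquivariant_apply _ _ _
  rw [h2, map_sum]
  have h3 : ∀ g : G, s ((j ∘ₗ θ).conjugate g v) = θ.conjugate g v := by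
    intro g
    rw [LinearMap.conjugate_apply, LinearMap.conjugate_apply, map_smul]
    change _ • s (j (θ _)) = _
    rw [hsj]
  rw [Finset.sum_congr rfl (fun g _ => h3 g)]
  exact h v

/-- the map `x ↦ x(1) 1` -/
noncomputable def c1 : MonoidAlgebra k G →ₗ[k] MonoidAlgebra k G where
  toFun x := MonoidAlgebra.single 1 (x.coeff 1)
  map_add' x y := by simp [MonoidAlgebra.single_add]
  map_smul' r x := by simp

theorem c1_apply (x : MonoidAlgebra k G) : c1 x = MonoidAlgebra.single 1 (x.coeff 1) := rfl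

theorem sum_c1 (x : MonoidAlgebra k G) :
    ∑ g : G, MonoidAlgebra.single g⁻¹ (1 : k) * c1 (MonoidAlgebra.single g (1 : k) * x) = x := by
  classical
  have h1 : ∀ g : G, MonoidAlgebra.single g⁻¹ (1 : k) * c1 (MonoidAlgebra.single g (1 : k) * x) =
      MonoidAlgebra.single g⁻¹ (x.coeff g⁻¹) := by
    intro g
    rw [c1_apply, MonoidAlgebra.single_mul_single, MonoidAlgebra.coeff_single_mul_apply]
    simp
  rw [Finset.sum_congr rfl (fun g _ => h1 g)]
  have h2 : ∑ g : G, MonoidAlgebra.single g⁻¹ (x.coeff g⁻¹) =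
      ∑ g : G, MonoidAlgebra.single g (x.coeff g) :=
    Equiv.sum_comp (Equiv.inv G) (fun g => MonoidAlgebra.single g (x.coeff g))
  rw [h2]
  apply MonoidAlgebra.coeff_injective
  ext h
  rw [MonoidAlgebra.coeff_sum, Finsupp.finsetSum_apply]
  simp [MonoidAlgebra.coeff_single, Finsupp.single_apply]

theorem trace_of_proj (hP : Module.Projective (MonoidAlgebra k G) M) :
    ∃ θ : M →ₗ[k] M, ∀ v, ∑ g : G, θ.conjugate g v = v := by
  classical
  obtain ⟨σ, hσ⟩ := hP
  let L : (M →₀ MonoidAlgebra k G) →ₗ[MonoidAlgebra k G] M :=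
    Finsupp.linearCombination (MonoidAlgebra k G) id
  let θ0 : (M →₀ MonoidAlgebra k G) →ₗ[k] (M →₀ MonoidAlgebra k G) :=
    Finsupp.mapRange.linearMap c1
  have h0 : ∀ f : M →₀ MonoidAlgebra k G, ∑ g : G, MonoidAlgebra.single g⁻¹ (1 : k) •
      θ0 (MonoidAlgebra.single g (1 : k) • f) = f := by
    intro f
    ext1 m
    rw [Finsupp.finsetSum_apply]
    exact sum_c1 (f m)
  refine ⟨(L.restrictScalars k) ∘ₗ θ0 ∘ₗ (σ.restrictScalars k), fun v => ?_⟩
  have h1 : ∀ g : G, ((L.restrictScalars k) ∘ₗ θ0 ∘ₗ (σ.restrictScalars k)).conjugate g v =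
      L (MonoidAlgebra.single g⁻¹ (1 : k) • θ0 (MonoidAlgebra.single g (1 : k) • σ v)) := by
    intro g
    rw [LinearMap.conjugate_apply, map_smul L, ← map_smul σ]
    rfl
  rw [Finset.sum_congr rfl (fun g _ => h1 g), ← map_sum, h0]
  exact hσ v

end general

/-- **T2. Higman's criterion.** -/
theorem proof_higman : S_higman.{u, v} := by
  intro k _ G _ _ A
  have key : ∀ (θ : A.ρ.asModule →ₗ[k] A.ρ.asModule) (v : A.ρ.asModule),
      A.ρ.asModuleEquiv (∑ g : G, θ.conjugate g v) =
        ∑ g : G, A.ρ g (A.ρ.asModuleEquiv (θ (A.ρ.asModuleEquiv.symm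
          (A.ρ g⁻¹ (A.ρ.asModuleEquiv v))))) := by
    intro θ v
    rw [map_sum]
    rw [← Equiv.sum_comp (Equiv.inv G)]
    refine Finset.sum_congr rfl (fun g _ => ?_)
    simp only [Equiv.inv_apply, LinearMap.conjugate_apply, inv_inv]
    rw [Representation.single_smul, Representation.single_smul, one_smul, one_smul]
    rfl
  constructor
  · intro h
    obtain ⟨θ, hθ⟩ := trace_of_proj (k := k) (G := G) (M := A.ρ.asModule) h
    refine ⟨A.ρ.asModuleEquiv.toLinearMap ∘ₗ θ ∘ₗ A.ρ.asModuleEquiv.symm.toLinearMap, fun v => ?_⟩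
    have h1 := key θ (A.ρ.asModuleEquiv.symm v)
    rw [hθ] at h1
    simpa using h1
  · rintro ⟨θ, hθ⟩
    refine proj_of_trace (k := k) (G := G) (M := A.ρ.asModule)
      (A.ρ.asModuleEquiv.symm.toLinearMap ∘ₗ θ ∘ₗ A.ρ.asModuleEquiv.toLinearMap) (fun v => ?_)
    apply A.ρ.asModuleEquiv.injective
    rw [key]
    exact (hθ (A.ρ.asModuleEquiv v)).symm

end Pool.Agent.H284.GAM
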